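import Pool.Agent.H492.RZ.Final3

/-!
# The Broadhurst-Kreimer conjecture: an upper bound in depth four

`mzv s = ζ(s₁, …, s_r)` (a real number, `s₁` belongs to the largest variable). `Fil r k` is the `ℚ`-span of the
`mzv s` with `s` admissible of weight `k` and depth at most `r`, and `grZ r k = Fil r k / Fil (r - 1) k`
is `gr^D_r 𝒵_k`.

**Theorem.** There is `C` with `dim gr^D_4 𝒵_k ≤ (5963/539136) k³ + C (k² + 1)` for all even `k`.

The conjecture predicts `dim gr^D_4 𝒵_k = (19/1728) k³ + O(k²) = (5928/539136) k³ + O(k²)` for even `k`; the ratio of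
the constants is `1.0059…`. No hypothesis is used.
-/

set_option autoImplicit false

namespace Pool.Agent.Results.MP_cbe134_nt.DepthFourUpperBound

open Module Pool.Agent.H492.RZ

theorem result : ∃ C : ℝ, ∀ k : ℕ, Even k →
    (finrank ℚ (grZ 4 k) : ℝ) ≤ (5963 / 539136) * k ^ 3 + C * (k ^ 2 + 1) := by
  obtain ⟨C, h⟩ := depth_four_three
  refine ⟨C, fun k hk => (h k hk).trans (le_of_eq ?_)⟩
  norm_num

end Pool.Agent.Results.MP_cbe134_nt.DepthFourUpperBound
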