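import Pool.Agent.H492.DG.One

/-! MP_cbe134_nt: the depth-one generators of weights `3, 5, 7, 9` satisfy exactly one relation.

Conjecturally (Ihara, Goncharov, Broadhurst and Kreimer, Brown) the Lie algebra generated by the depth-one
elements `f_b = (ad x₀)^(2b) x₁`, `b ≥ 1`, of the depth-graded motivic Lie algebra has only the relations that
come from period polynomials; this is behind the terms `O(X) Y` and `S(X) Y²` of the formula of Broadhurst and
Kreimer. The first one is `{f₁, f₄} = 3 {f₂, f₃}` (Ihara, Takao), in weight `12`. We prove, in all depths, that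
all relations of `f₁, f₂, f₃, f₄` follow from this one.

The space `ℚ⟨x₀, x₁⟩` is a module over the enveloping algebra of the depth-graded Lie algebra: `f` acts by
`g ↦ f g + D_f g`. The enveloping algebra of the Lie algebra generated by `f₁, …, f₄` is `ℚ⟨X₁, …, X₄⟩` modulo
one quadratic relation, and it acts faithfully already on `1`.

Proof. Let `θ` delete the letters `x₀` at the end of the words, so that `θ f ∈ ℚ⟨y₀, y₁, …⟩` with
`y_k = x₀^k x₁`; the operator of `f` becomes `g ↦ g θ(f) + E_f g` with a derivation `E_f`. Let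
`F₀ = 6 f₂ - 8 f₃ + 3 f₄`, `F₁ = (13 f₂ - 22 f₃ + 9 f₄) / 8`, `F₂ = (f₂ - 2 f₃ + f₄) / 4` and
`G = f₁ - 3 f₂ + 3 f₃ - f₄`. For the weight in which `y_k` has weight `k + q`, `q` large, the leading parts of
the operators of `F₀, F₁, F₂` are the multiplications by `y₀, y₁, y₂` from the right, and that of `G` is the
derivation `δ` of `f₁`. In the new generators the relation is a rule for `G F₀`. The words in
`F₀, F₁, F₂, G` which avoid `G F₀` are linearly independent, as operators on `1`, since this is true for the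
leading parts; here one looks at the words ending with `y₂` and `y₃`. -/

set_option autoImplicit false

namespace Pool.Agent.Results.MP_cbe134_nt.OneRelation3579

open Pool.Agent.H777R4.DM

attribute [local instance 100] LieRing.ofAssociativeRing

/-- Let `f_i = (ad x₀)^(2i) x₁` for `i = 1, …, 4` (`adp (2 * i.val + 2)` for `i : Fin 4`). The linear map `φ`
from `ℚ⟨X₁, …, X₄⟩` to `ℚ⟨x₀, x₁⟩` with `φ 1 = 1` and `φ (X_i P) = f_i φ(P) + D_{f_i} φ(P)` carries `X_i` to
`f_i` and the bracket `[P, Q] = PQ - QP` of the free Lie algebra on `X₁, …, X₄` to the Ihara bracket, and its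
kernel is the two-sided ideal generated by `[X₁, X₄] - 3 [X₂, X₃]`. -/
theorem result : ∃ φ : Al (Fin 4) →ₗ[ℚ] A,
    φ 1 = 1 ∧
    (∀ i P, φ (wd [i] * P) = adp (2 * i.val + 2) * φ P + der (adp (2 * i.val + 2)) (φ P)) ∧
    (∀ i, φ (wd [i]) = adp (2 * i.val + 2)) ∧
    (∀ P ∈ LieN 4, ∀ Q ∈ LieN 4, φ (P * Q - Q * P) = ihara (φ P) (φ Q)) ∧
    (∀ P, φ P = 0 ↔ P ∈ (TwoSidedIdeal.span
      {wd [0] * wd [3] - wd [3] * wd [0] - (3 : ℚ) • (wd [1] * wd [2] - wd [2] * wd [1])} :
        TwoSidedIdeal (Al (Fin 4)))) := by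
  refine ⟨PhiN Pool.Agent.H492.DG.f4, ?_, ?_, (Pool.Agent.H358R3.DM.taskFinalN 4 _).1,
    (Pool.Agent.H358R3.DM.taskFinalN 4 _).2, Pool.Agent.H492.DG.one_relation⟩
  · rw [Pool.Agent.H358R3.DM.PhiN_eq, map_one (Pool.Agent.H358R3.DM.SN Pool.Agent.H492.DG.f4)]
    rfl
  · intro i P
    rw [Pool.Agent.H358R3.DM.PhiN_eq, Pool.Agent.H358R3.DM.PhiN_eq, map_mul, Pool.Agent.H358R3.DM.SN_wd]
    rfl

end Pool.Agent.Results.MP_cbe134_nt.OneRelation3579
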