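import Pool.Agent.H492.DG.Res3

/-! MP_cbe134_nt: sets of weights of positive density without relations in depth at most `r`.

In the depth-graded motivic Lie algebra the elements of depth one `f_b = (ad x₀)^(2b) x₁` of weights `2b + 1`
satisfy relations in every depth `≥ 2`, conjecturally only those which come from the period polynomials (terms
`O(X) Y` and `S(X) Y²` of the formula of Broadhurst and Kreimer). Let `q = p^e` be a power of a prime and
`m ≥ 1`. We consider the weights `w` with `(w - 1) mod q` in `{m, …, 2m - 1}`; among the odd weights they have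
density about `m / q`. We show that there is no relation between the products
`f_{b₁} ∘ (f_{b₂} ∘ ⋯ )`, `f ∘ g = f g + D_f g`, of such elements as long as the sums of the residues
`2 b_i mod q` are smaller than `q`; in particular there is none of length `≤ r` if `r (2m - 1) < q`. So for
every `r` there is a set of weights of density close to `1 / (2r)` without relations in depth at most `r`.
Instead of `f_b` one may take any elements of `Lie[x₀, x₁]`, not zero in depth one, of these weights.

Proof. Delete the letters `x₀` at the end of the words; let `y_k = x₀^k x₁`. The operator `g ↦ f_b ∘ g` becomes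
`g(x_1, …, x_s) (x_{s+1} - 1)^(2b)` plus a derivation with `(x_i - x_{i+1})^(2b)`. Modulo `p`, by Lucas's
theorem, the derivation adds exactly the residue of `2b` to the sum of the residues of the exponents, if this
sum is smaller than `q`. Let `∑ c_i t^(d_i)` be a nonzero polynomial modulo `p`, `d_i mod q` in the window. Its
expansion at `-1` contains a power with exponent `k` such that `k mod q` is smaller than all the `d_i mod q`
with `c_i ≠ 0`. So the smallest sum of residues in `∑ f_{b_i} ∘ g_i` comes from the first part. -/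

set_option autoImplicit false

namespace Pool.Agent.Results.MP_cbe134_nt.ResiduesInWindow

open Pool.Agent.H777R4.DM

attribute [local instance 100] LieRing.ofAssociativeRing

/-- Let `q = p^e` be a power of a prime, and let `w₁, …, w_n` be different weights with `(w_i - 1) mod q` in
`{m, …, 2m - 1}`. Let `ψ_i` be an element of `Lie[x₀, x₁]`, homogeneous of weight `w_i`, whose coefficient at
`x₀^(w_i - 1) x₁` is not zero. Let `φ` be the linear map from `ℚ⟨X₁, …, X_n⟩` to `ℚ⟨x₀, x₁⟩` with `φ 1 = 1` and
`φ (X_i P) = ψ_i φ(P) + D_{ψ_i} φ(P)`. If `φ P = 0` and the sum of the `(w_i - 1) mod q` over the letters is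
smaller than `q` for all words of `P`, then `P = 0`. -/
theorem result (p : ℕ) (hp : p.Prime) (e m n : ℕ) (w : Fin n → ℕ) (hw : Function.Injective w)
    (hwin : ∀ i, m ≤ (w i - 1) % p ^ e ∧ (w i - 1) % p ^ e < 2 * m)
    (ψ : Fin n → A) (hL : ∀ i, ψ i ∈ LieX)
    (hhom : ∀ i u, co (ψ i) u ≠ 0 → u.length = w i)
    (hne : ∀ i, co (ψ i) (List.replicate (w i - 1) 0 ++ [1]) ≠ 0) :
    ∃ φ : Al (Fin n) →ₗ[ℚ] A, φ 1 = 1 ∧
      (∀ i P, φ (wd [i] * P) = ψ i * φ P + der (ψ i) (φ P)) ∧
      (∀ P ∈ LieN n, ∀ Q ∈ LieN n, φ (P * Q - Q * P) = ihara (φ P) (φ Q)) ∧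
      ∀ P, φ P = 0 → (∀ W, co P W ≠ 0 → (W.map fun i => (w i - 1) % p ^ e).sum < p ^ e) → P = 0 := by
  refine ⟨PhiN ψ, ?_, ?_, (Pool.Agent.H358R3.DM.taskFinalN n _).2, fun P hP hW =>
    Pool.Agent.H492.DG.res_window p hp e m n w hw (fun i => ⟨?_, hwin i⟩) ψ hL hhom hne P hP hW⟩
  · rw [Pool.Agent.H358R3.DM.PhiN_eq, map_one (Pool.Agent.H358R3.DM.SN ψ)]
    rfl
  · intro i P
    rw [Pool.Agent.H358R3.DM.PhiN_eq, Pool.Agent.H358R3.DM.PhiN_eq, map_mul, Pool.Agent.H358R3.DM.SN_wd]
    rfl
  · have h1 := hhom i _ (hne i)
    rw [← h1]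
    simp

end Pool.Agent.Results.MP_cbe134_nt.ResiduesInWindow
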