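import Pool.Agent.H492.DG.TT4

/-! MP_cbe134_nt: in every depth, two thirds of the possible dimension for each further letter.

Let `ψ_n`, `n ≥ 1`, be elements of `Lie[x₀, x₁]` of weight `2n + 1` which are not zero in depth one, for instance
`f_n = (ad x₀)^(2n) x₁`, the generators of depth one of the depth-graded motivic Lie algebra, or elements of
the motivic Lie algebra. The products `ψ_{n₁} ∘ (ψ_{n₂} ∘ ⋯ )`, where `f ∘ g = f g + D_f g`, span the enveloping
algebra of the Lie algebra generated by the `ψ_n` with the Ihara bracket. Let `U(r, N)` be the span of the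
products of length `r` and of weight at most `N`. For `ψ_n = f_n` the formula of Broadhurst and Kreimer
predicts (for the part generated in depth one) that `dim U(r, N)` is the sum of the coefficients of
`X^k Y^r`, `k ≤ N`, in `1 / (1 - O(X) Y + S(X) Y²)`. This is known for `r ≤ 3`.

We prove `dim U(r + 1, N) ≥ ∑ dim U(r, N - (2n + 1))`, the sum over the `n ≥ 1` not divisible by three. So
`dim U(r, N)` is at least the number of the words `n₁ ⋯ n_r` of weight at most `N` with `n₁, …, n_{r-1}` not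
divisible by three, which is asymptotically `(2/3)^(r-1)` times the number of all words of length `r`.

Proof. For `k ≥ 0` let `h_k = t^(2⌊k/2⌋+2) (t² - 1)^k`; its degree is `2n`, `n = ⌊3k/2⌋ + 1`, and these `n` are
the numbers `≥ 1` not divisible by three. Let `Ψ_k` be the combination of the `ψ_m`, `m ≤ n`, whose part of
depth one is given by `h_k`. After deleting the letters `x₀` at the end of the words, the operator
`g ↦ Ψ_k ∘ g` becomes `g(x_1, …, x_d) h_k(x_{d+1} - 1)` plus a derivation, up to words of larger length, in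
which `h_k` has the arguments `x_i - x_{i+1}`. Since `h_k` vanishes to the order `k` at `-1` and to a larger
order at `0`, the operators `Ψ_k` are jointly injective: `∑ Ψ_k ∘ g_k = 0` implies `g_k = 0`, for arbitrary
`g_k`. The elements `h_k` are not homogeneous; a homogeneous family with this property is finite. -/

set_option autoImplicit false

namespace Pool.Agent.Results.MP_cbe134_nt.TwoThirdsInEveryDepth

open Pool.Agent.H777R4.DM Module

attribute [local instance 100] LieRing.ofAssociativeRing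

/-- `ψ n`, `n ≥ 1`, is an element of `Lie[x₀, x₁]`, homogeneous of weight `2 n + 1`, whose coefficient at
`x₀^(2n) x₁` is not zero -/
structure Generators (ψ : ℕ → A) : Prop where
  lie : ∀ n, 1 ≤ n → ψ n ∈ LieX
  hom : ∀ n, 1 ≤ n → ∀ u, co (ψ n) u ≠ 0 → u.length = 2 * n + 1
  ne : ∀ n, 1 ≤ n → co (ψ n) (List.replicate (2 * n) 0 ++ [1]) ≠ 0

/-- the product `ψ_{n₁} ∘ (ψ_{n₂} ∘ ⋯ (ψ_{n_r} ∘ 1))` with `f ∘ g = f g + D_f g` -/
noncomputable def product (ψ : ℕ → A) : List ℕ → A
  | [] => 1
  | n :: W => ψ n * product ψ W + der (ψ n) (product ψ W)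

/-- the weight of the product -/
def weight (W : List ℕ) : ℕ := (W.map fun n => 2 * n + 1).sum

/-- the span of the products of `r` elements `ψ_n`, `n ≥ 1`, of weight at most `N` -/
noncomputable def U (ψ : ℕ → A) (r N : ℕ) : Submodule ℚ A :=
  Submodule.span ℚ {g | ∃ W : List ℕ, W.length = r ∧ (∀ n ∈ W, 1 ≤ n) ∧ weight W ≤ N ∧ g = product ψ W}

theorem product_eq (ψ : ℕ → A) : ∀ W, product ψ W = Pool.Agent.H492.DG.wo ψ W
  | [] => rfl
  | n :: W => by
      show ψ n * product ψ W + der (ψ n) (product ψ W) = s (ψ n) (Pool.Agent.H492.DG.wo ψ W)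
      rw [product_eq ψ W]
      rfl

theorem U_eq (ψ : ℕ → A) (r N : ℕ) : U ψ r N = Pool.Agent.H492.DG.Sp ψ (Pool.Agent.H492.DG.pw r N) := by
  unfold U Pool.Agent.H492.DG.Sp Pool.Agent.H492.DG.pw
  congr 1
  ext g
  constructor
  · rintro ⟨W, h1, h2, h3, rfl⟩
    exact ⟨W, ⟨h1, h2, h3⟩, product_eq ψ W⟩
  · rintro ⟨W, ⟨h1, h2, h3⟩, rfl⟩
    exact ⟨W, h1, h2, h3, (product_eq ψ W).symm⟩

theorem generators_adp : Generators (fun n => adp (2 * n)) where
  lie := fun n _ => adp_mem _
  hom := fun n _ u hu => (adp_words _ _ hu).1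
  ne := fun n _ => by
    have h := Pool.Agent.H492.DG.co_adp_wordX (2 * n) [2 * n]
    rw [if_pos rfl] at h
    show co (adp (2 * n)) (wordX [2 * n]) ≠ 0
    rw [h]
    exact one_ne_zero

theorem dat {ψ : ℕ → A} (h : Generators ψ) :
    Pool.Agent.H492.DG.DatN ψ (fun n => co (ψ n) (wordX [2 * n])) where
  hκ := fun n hn => h.ne n hn
  hψ := fun n hn => by
    have h1 := Pool.Agent.N568.DSF.lie_split (h.lie n hn) (2 * n) (by omega) (h.hom n hn)
    rw [Pool.Agent.H492.DG.adp_eq_Fm]
    exact h1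
  hd := fun n hn => by
    refine Pool.Agent.H777R4.DM.R0.d0_dm _ (h.lie n hn) ?_
    by_contra h1
    have := h.hom n hn _ h1
    simp at this
    omega

/-- (1) `f_n = (ad x₀)^(2n) x₁` are generators. (2) Let `ψ` be generators. For all `r` and `N`,
`dim U(r + 1, N) ≥ ∑ dim U(r, N - (2n + 1))`, the sum over the `n` not divisible by three with `2n + 1 ≤ N`;
hence `dim U(r, N)` is at least the number of the sequences `n₁, …, n_r ≥ 1` with `n₁, …, n_{r-1}` not divisible
by three and `∑ (2 n_i + 1) ≤ N`. -/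
theorem result : Generators (fun n => adp (2 * n)) ∧ ∀ ψ : ℕ → A, Generators ψ →
    (∀ r N : ℕ, ∑ n ∈ (Finset.range (N + 1)).filter (fun n => ¬ 3 ∣ n ∧ 2 * n + 1 ≤ N),
      finrank ℚ (U ψ r (N - (2 * n + 1))) ≤ finrank ℚ (U ψ (r + 1) N)) ∧
    (∀ r N : ℕ, {W : List ℕ | W.length = r ∧ (∀ n ∈ W, 1 ≤ n) ∧ (∀ n ∈ W.dropLast, ¬ 3 ∣ n) ∧
      weight W ≤ N}.ncard ≤ finrank ℚ (U ψ r N)) := by
  refine ⟨generators_adp, fun ψ h => ⟨fun r N => ?_, fun r N => ?_⟩⟩
  · have h1 := Pool.Agent.H492.DG.rec_pw (dat h) r N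
    rw [U_eq]
    refine le_trans (le_of_eq ?_) h1
    exact Finset.sum_congr rfl fun n _ => by rw [U_eq]
  · rw [U_eq]
    refine Pool.Agent.H492.DG.count_pw (dat h) ?_ r N
    intro n m hn _
    by_cases hnm : n = m
    · rw [if_pos hnm, hnm]
    · rw [if_neg hnm]
      by_contra h1
      have h2 := h.hom n hn _ h1
      simp [wordX] at h2
      omega

end Pool.Agent.Results.MP_cbe134_nt.TwoThirdsInEveryDepth
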